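import Pool.Agent.Helper53.AJ.Defs

/-!
# All jumps: blocks A1 - A5
-/

set_option autoImplicit false

namespace Pool.Agent.Helper53.AJ

open FirstOrder Pool.Agent.Helper20.Spectra Pool.Agent.Helper58.QD Pool.Agent.Helper14.SS
open Pool.Agent.Helper31.QD (Au)
open Pool.Agent.Helper40.MCM
open Pool.Agent.Helper40.MC (FinAP)

variable {S : Type} {ar : S → ℕ}

/-- A1: irreducible parts. -/
theorem irr_of {V : Type} {R : Interp S ar V} {q t : ℕ} {u : Fin q × Fin t → V} (hu : Hm R u) (ht : 1 ≤ t) :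
    ∃ (t' : ℕ) (e : Fin t' → Fin t), Function.Injective e ∧ 1 ≤ t' ∧ t' ≤ t ∧
      Irr R (fun p : Fin q × Fin t' => u (p.1, e p.2)) := by
  induction t using Nat.strong_induction_on with
  | _ t ih =>
    by_cases h : Irr R u
    · exact ⟨t, id, Function.injective_id, ht, le_rfl, h⟩
    · unfold Irr at h
      push Not at h
      obtain ⟨t1, e1, he1, h1, h2, h3⟩ := h hu ht
      obtain ⟨t2, e2, he2, h4, h5, h6⟩ := ih t1 h2 h3 h1
      exact ⟨t2, e1 ∘ e2, he1.comp he2, h4, h5.trans h2.le, h6⟩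

/-- A2: families of a substructure -/
theorem hm_rs {V : Type} {R : Interp S ar V} {A : Set V} {q t : ℕ} {w : Fin q × Fin t → A}
    (hw : Hm R (fun p => (w p : V))) : Hm (rs R A) w := by
  refine ⟨fun a b hab => hw.1 (congrArg Subtype.val hab), fun π σ h1 h2 s v => ?_⟩
  have h3 := hw.bm π s (fun i => (v i : V))
  show R s (fun i => ((σ (v i) : A) : V)) ↔ R s (fun i => (v i : V))
  rw [← h3]
  refine Iff.of_eq (congrArg (R s) ?_)
  funext i
  simp only [Function.comp]
  by_cases hz : ∃ p, w p = v i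
  · obtain ⟨⟨a, x⟩, hp⟩ := hz
    rw [← hp, h1]
    exact (bm_apply (fun p => (w p : V)) hw.1 π a x).symm
  · push Not at hz
    rw [h2 _ hz]
    exact (bm_off (fun p => (w p : V)) hw.1 π _ (fun p hp => hz p (Subtype.ext hp))).symm

/-- a swap of blocks fixes the other points -/
theorem bm_swap_off {V : Type} {q t : ℕ} (u : Fin q × Fin t → V) (hu : Function.Injective u)
    (a b : Fin q) (z : V) (ha : ∀ x, u (a, x) ≠ z) (hb : ∀ x, u (b, x) ≠ z) :
    bm u hu (Equiv.swap a b) z = z := by
  by_cases hz : ∃ p, u p = z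
  · obtain ⟨⟨c, x⟩, rfl⟩ := hz
    rw [bm_apply, Equiv.swap_apply_of_ne_of_ne]
    · rintro rfl
      exact ha x rfl
    · rintro rfl
      exact hb x rfl
  · push Not at hz
    exact bm_off u hu _ z hz

/-- A3: lift. -/
theorem lift {V : Type} {R : Interp S ar V} {r k : ℕ} (hr : ∀ s, ar s ≤ r) {q t : ℕ} {u : Fin q × Fin t → V}
    (hu : Hm R u) (hq : r + 2 * k + 1 < q) (i : Fin q) {q' t' : ℕ} {w : Fin q' × Fin t' → off u i}
    (ht' : t' ≤ k) (hw : Hm (rs R (off u i)) w) : Hm R (fun p => (w p : V)) := by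
  classical
  have hinj : Function.Injective (fun p => (w p : V)) := fun a b hab => hw.1 (Subtype.ext hab)
  refine hm_of_swap hinj fun a b _ s v => ?_
  -- a free block of `u`
  obtain ⟨j, hji, hjv, hja, hjb⟩ : ∃ j : Fin q, j ≠ i ∧ (∀ p x, u (j, x) ≠ v p) ∧
      (∀ x y, u (j, x) ≠ (w (a, y) : V)) ∧ ∀ x y, u (j, x) ≠ (w (b, y) : V) := by
    let f : V → Option (Fin q) := fun z => if h : ∃ p, u p = z then some h.choose.1 else none
    have hf : ∀ j x, f (u (j, x)) = some j := by
      intro j x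
      have h : ∃ p, u p = u (j, x) := ⟨_, rfl⟩
      simp only [f]
      rw [dif_pos h, hu.1 h.choose_spec]
    let X : Finset (Option (Fin q)) := insert (some i) ((Finset.univ.image fun p => f (v p)) ∪
      ((Finset.univ.image fun y : Fin t' => f (w (a, y) : V)) ∪
        (Finset.univ.image fun y : Fin t' => f (w (b, y) : V))))
    have hX : X.card ≤ r + 2 * k + 1 := by
      have h1 : X.card ≤ _ + 1 := Finset.card_insert_le _ _
      have h2 := Finset.card_union_le (Finset.univ.image fun p => f (v p))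
        ((Finset.univ.image fun y : Fin t' => f (w (a, y) : V)) ∪
        (Finset.univ.image fun y : Fin t' => f (w (b, y) : V)))
      have h3 := Finset.card_union_le (Finset.univ.image fun y : Fin t' => f (w (a, y) : V))
        (Finset.univ.image fun y : Fin t' => f (w (b, y) : V))
      have h4 : (Finset.univ.image fun p => f (v p)).card ≤ ar s :=
        Finset.card_image_le.trans (by simp)
      have h5 : (Finset.univ.image fun y : Fin t' => f (w (a, y) : V)).card ≤ t' :=
        Finset.card_image_le.trans (by simp)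
      have h6 : (Finset.univ.image fun y : Fin t' => f (w (b, y) : V)).card ≤ t' :=
        Finset.card_image_le.trans (by simp)
      have h7 := hr s
      omega
    obtain ⟨j0, hj0, hj⟩ : ∃ j ∈ (Finset.univ : Finset (Fin q)).image some, j ∉ X := by
      apply Finset.exists_mem_notMem_of_card_lt_card
      rw [Finset.card_image_of_injective _ (Option.some_injective _)]
      simp only [Finset.card_univ, Fintype.card_fin]
      omega
    obtain ⟨j, -, rfl⟩ := Finset.mem_image.1 hj0
    simp only [X, Finset.mem_insert, Finset.mem_union, not_or] at hj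
    refine ⟨j, fun h => hj.1 (congrArg some h), fun p x h => hj.2.1 ?_, fun x y h => hj.2.2.1 ?_,
      fun x y h => hj.2.2.2 ?_⟩
    · exact Finset.mem_image.2 ⟨p, Finset.mem_univ _, by rw [← h, hf]⟩
    · exact Finset.mem_image.2 ⟨y, Finset.mem_univ _, by rw [← h, hf]⟩
    · exact Finset.mem_image.2 ⟨y, Finset.mem_univ _, by rw [← h, hf]⟩
  set τ := bm u hu.1 (Equiv.swap i j) with hτ
  set ρ := bm (fun p => (w p : V)) hinj (Equiv.swap a b) with hρ
  have hτR : Au R τ := hu.bm _
  have hoff : ∀ p, τ (v p) ∈ off u i := by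
    intro p x hx
    by_cases h1 : ∃ y, u (i, y) = v p
    · obtain ⟨y, hy⟩ := h1
      rw [← hy, hτ, bm_apply, Equiv.swap_apply_left] at hx
      exact hji (congrArg Prod.fst (hu.1 hx)).symm
    · push Not at h1
      rw [hτ, bm_swap_off u hu.1 i j (v p) h1 (hjv p)] at hx
      exact h1 x hx
  let v' : Fin (ar s) → off u i := fun p => ⟨τ (v p), hoff p⟩
  have h1 := hw.bm (Equiv.swap a b) s v'
  have h2 : ∀ z : off u i, ((bm w hw.1 (Equiv.swap a b) z : off u i) : V) = ρ z := by
    intro z
    by_cases hz : ∃ p, w p = z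
    · obtain ⟨⟨c, y⟩, rfl⟩ := hz
      rw [bm_apply]
      exact (bm_apply (fun p => (w p : V)) hinj (Equiv.swap a b) c y).symm
    · push Not at hz
      rw [bm_off w hw.1 _ z hz]
      exact (bm_off (fun p => (w p : V)) hinj _ _ (fun p hp => hz p (Subtype.ext hp))).symm
  have h3 : R s (fun p => ρ (τ (v p))) ↔ R s (fun p => τ (v p)) := by
    have h4 : (fun p => ρ (τ (v p))) = fun p => ((bm w hw.1 (Equiv.swap a b) (v' p) : off u i) : V) := by
      funext p
      rw [h2]
    rw [h4]
    exact h1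
  have hcomm : ∀ p, ρ (τ (v p)) = τ (ρ (v p)) := by
    intro p
    by_cases hz : (∃ y, (w (a, y) : V) = v p) ∨ ∃ y, (w (b, y) : V) = v p
    · have hz1 : ∀ x, u (i, x) ≠ v p := by
        rcases hz with ⟨y, hy⟩ | ⟨y, hy⟩
        · rw [← hy]; exact (w (a, y)).2
        · rw [← hy]; exact (w (b, y)).2
      have hz2 : ∀ x, u (j, x) ≠ v p := hjv p
      have e1 : τ (v p) = v p := bm_swap_off u hu.1 i j (v p) hz1 hz2
      rw [e1]
      have e2 : τ (ρ (v p)) = ρ (v p) := by
        rcases hz with ⟨y, hy⟩ | ⟨y, hy⟩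
        · have h5 : ρ (v p) = (w (b, y) : V) := by
            rw [← hy, hρ]
            have := bm_apply (fun p => (w p : V)) hinj (Equiv.swap a b) a y
            rw [this, Equiv.swap_apply_left]
          rw [h5]
          exact bm_swap_off u hu.1 i j _ (w (b, y)).2 (fun x => hjb x y)
        · have h5 : ρ (v p) = (w (a, y) : V) := by
            rw [← hy, hρ]
            have := bm_apply (fun p => (w p : V)) hinj (Equiv.swap a b) b y
            rw [this, Equiv.swap_apply_right]
          rw [h5]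
          exact bm_swap_off u hu.1 i j _ (w (a, y)).2 (fun x => hja x y)
      rw [e2]
    · push Not at hz
      have e1 : ρ (v p) = v p := bm_swap_off (fun p => (w p : V)) hinj a b _ hz.1 hz.2
      rw [e1]
      by_cases h5 : ∃ x, u (i, x) = v p
      · obtain ⟨x, hx⟩ := h5
        have e2 : τ (v p) = u (j, x) := by
          rw [← hx, hτ, bm_apply, Equiv.swap_apply_left]
        rw [e2]
        exact bm_swap_off (fun p => (w p : V)) hinj a b _ (fun y hy => hja x y hy.symm)
          (fun y hy => hjb x y hy.symm)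
      · push Not at h5
        have e2 : τ (v p) = v p := bm_swap_off u hu.1 i j (v p) h5 (hjv p)
        rw [e2, e1]
  have h4 : R s (fun p => ρ (τ (v p))) ↔ R s (ρ ∘ v) := by
    have h5 : (fun p => ρ (τ (v p))) = τ ∘ (ρ ∘ v) := funext hcomm
    rw [h5]
    exact hτR s (ρ ∘ v)
  rw [← h4, h3]
  exact hτR s v

/-- A4: the number of classes does not decrease when a block is removed -/
theorem cls_le {V : Type} [Finite V] {R : Interp S ar V} {r k N : ℕ} (hr : ∀ s, ar s ≤ r)
    (hN : r + 2 * k + 2 ≤ N) {q t : ℕ} {u : Fin q × Fin t → V} (hu : Big R k N u) (i : Fin q) :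
    Nat.card (Quot (Rl R k N)) ≤ Nat.card (Quot (Rl (rs R (off u i)) k N)) := by
  have hq : N ≤ q := hu.2.2
  have hbig : ∀ (q' t' : ℕ) (w : Fin q' × Fin t' → off u i), Big (rs R (off u i)) k N w →
      Big R k N (fun p => (w p : V)) := by
    intro q' t' w hw
    refine ⟨⟨lift hr hu.1.1 (by omega) i hw.2.1 hw.1.1, hw.1.2.1, ?_⟩, hw.2.1, hw.2.2⟩
    intro t1 e he h1 h2 h3
    exact hw.1.2.2 t1 e he h1 h2 (hm_rs h3)
  let F : Quot (Rl (rs R (off u i)) k N) → Quot (Rl R k N) :=
    Quot.lift (fun z => Quot.mk _ (z : V)) (by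
      rintro z z' ⟨q', t', w, hw, ⟨p, rfl⟩, ⟨p', rfl⟩⟩
      exact Quot.sound ⟨q', t', _, hbig q' t' w hw, ⟨p, rfl⟩, ⟨p', rfl⟩⟩)
  have hF : Function.Surjective F := by
    intro c
    obtain ⟨z, rfl⟩ := Quot.exists_rep c
    by_cases hz : ∃ x, u (i, x) = z
    · obtain ⟨x, rfl⟩ := hz
      obtain ⟨j, hj⟩ : ∃ j : Fin q, j ≠ i := by
        have : Nontrivial (Fin q) := Fin.nontrivial_iff_two_le.2 (by omega)
        exact exists_ne i
      refine ⟨Quot.mk _ ⟨u (j, x), fun y hy => ?_⟩, ?_⟩
      · exact hj (congrArg Prod.fst (hu.1.1.1 hy)).symm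
      · exact Quot.sound ⟨q, t, u, hu, ⟨_, rfl⟩, ⟨_, rfl⟩⟩
    · push Not at hz
      exact ⟨Quot.mk _ ⟨z, hz⟩, rfl⟩
  have : Finite (off u i) := Subtype.finite
  exact Nat.card_le_card_of_surjective F hF

/-- A5: the number of classes is bounded (induction on the number of points) -/
theorem cls_bdd {r k N₀ : ℕ} (hr : ∀ s, ar s ≤ r) (P : ∀ V : Type, Interp S ar V → Prop)
    (hfam : ∀ q : ℕ, ∃ n₀ : ℕ, ∀ (V : Type) (R : Interp S ar V), Finite V → P V R → n₀ ≤ Nat.card V →
      ∃ t, 1 ≤ t ∧ t ≤ k ∧ ∃ u : Fin q × Fin t → V, Hm R u)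
    (hdown : ∃ q₀ : ℕ, ∀ (V : Type) (R : Interp S ar V), Finite V → P V R → ∀ q t : ℕ, q₀ ≤ q → t ≤ k →
      ∀ u : Fin q × Fin t → V, Hm R u → ∀ i, P (off u i) (rs R (off u i))) :
    ∃ N, N₀ ≤ N ∧ ∃ C, ∀ (V : Type) (R : Interp S ar V), Finite V → P V R →
      Nat.card (Quot (Rl R k N)) ≤ C := by
  obtain ⟨q₀, hdown⟩ := hdown
  set N := N₀ + (r + 2 * k + 2) + q₀ with hN
  obtain ⟨n₀, hn₀⟩ := hfam N
  refine ⟨N, by omega, n₀, ?_⟩
  have key : ∀ (m : ℕ) (V : Type) (R : Interp S ar V), Finite V → Nat.card V = m → P V R →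
      Nat.card (Quot (Rl R k N)) ≤ n₀ := by
    intro m
    induction m using Nat.strong_induction_on with
    | _ m ih =>
      intro V R hV hm hP
      by_cases h1 : Nat.card V ≤ n₀
      · exact (Nat.card_le_card_of_surjective (Quot.mk (Rl R k N)) Quot.exists_rep).trans h1
      · obtain ⟨t, ht1, htk, u, hu⟩ := hn₀ V R hV hP (by omega)
        obtain ⟨t', e, he, h2, h3, h4⟩ := irr_of hu ht1
        set u' : Fin N × Fin t' → V := fun p => u (p.1, e p.2) with hu'
        have hbig : Big R k N u' := ⟨h4, h3.trans htk, le_rfl⟩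
        have i : Fin N := ⟨0, by omega⟩
        have hP' := hdown V R hV hP N t' (by omega) (h3.trans htk) u' h4.1 i
        have hlt : Nat.card (off u' i) < m := by
          rw [← hm]
          have h5 := Fintype.ofFinite V
          have h6 := Fintype.ofFinite (off u' i)
          rw [Nat.card_eq_fintype_card, Nat.card_eq_fintype_card]
          refine Fintype.card_lt_of_injective_of_notMem (fun z : off u' i => (z : V))
            Subtype.val_injective (b := u' (i, ⟨0, h2⟩)) ?_
          rintro ⟨z, hz⟩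
          exact z.2 ⟨0, h2⟩ hz.symm
        exact (cls_le hr (by omega) hbig i).trans
          (ih _ hlt _ _ Subtype.finite rfl hP')
  intro V R hV hP
  exact key _ V R hV rfl hP

end Pool.Agent.Helper53.AJ
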