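import Pool.Agent.Helper53.AJ.Upper

/-!
# Growth of the number of models on residue classes: the upper bound
-/

set_option autoImplicit false

namespace Pool.Agent.Helper53.AJ

open FirstOrder Pool.Agent.Helper20.Spectra Pool.Agent.Helper58.QD Pool.Agent.Helper14.SS
open Pool.Agent.Helper31.QD (Au)
open Pool.Agent.Helper40.MCM
open Pool.Agent.Helper40.MC (FinAP)

variable {S : Type} {ar : S → ℕ}

/-- all large models with `n ≡ ρ` points have homogeneous families of blocks of at most `k` points -/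
def FamR (φ : SFm (RelLang S ar) 0 0) (k p ρ : ℕ) : Prop :=
  ∀ q : ℕ, ∃ n₀ : ℕ, ∀ n, n₀ ≤ n → n % p = ρ → ∀ R : Interp S ar (Fin n), SatM φ R →
    ∃ t, 1 ≤ t ∧ t ≤ k ∧ HFam R q t

theorem FamR.mono {φ : SFm (RelLang S ar) 0 0} {k k' p ρ : ℕ} (h : FamR φ k p ρ) (hk : k ≤ k') : FamR φ k' p ρ := by
  intro q
  obtain ⟨n₀, hn₀⟩ := h q
  refine ⟨n₀, fun n hn hr R hR => ?_⟩
  obtain ⟨t, h1, h2, h3⟩ := hn₀ n hn hr R hR
  exact ⟨t, h1, h2.trans hk, h3⟩

theorem FamK.res {φ : SFm (RelLang S ar) 0 0} {k : ℕ} (h : FamK φ k) (p ρ : ℕ) : FamR φ k p ρ := by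
  intro q
  obtain ⟨n₀, hn₀⟩ := h q
  exact ⟨n₀, fun n hn _ R hR => hn₀ n hn R hR⟩

/-- all large models with `n ≡ ρ` points, on arbitrary finite sets -/
theorem FamR.any {φ : SFm (RelLang S ar) 0 0} {k p ρ : ℕ} (h : FamR φ k p ρ) (q : ℕ) : ∃ n₀ : ℕ,
    ∀ (V : Type) (R : Interp S ar V), Finite V → (∃ _ : Fintype V, SatM φ R) → Nat.card V % p = ρ → n₀ ≤ Nat.card V →
      ∃ t, 1 ≤ t ∧ t ≤ k ∧ ∃ u : Fin q × Fin t → V, Hm R u := by
  obtain ⟨n₀, hn₀⟩ := h q
  refine ⟨n₀, fun V R _ hs hV' hV => ?_⟩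
  obtain ⟨_, hs⟩ := hs
  rw [Nat.card_eq_fintype_card] at hV hV'
  let e : V ≃ Fin (Fintype.card V) := Fintype.equivFin V
  obtain ⟨t, ht1, htk, u, hu⟩ := hn₀ _ hV hV' (fun s w => R s (e.symm ∘ w)) ((satM_equiv φ e R).2 hs)
  exact ⟨t, ht1, htk, _, hm_map (R := fun s w => R s (e.symm ∘ w)) (R' := R) e.symm
    (fun s w => Iff.rfl) hu⟩

/-- parts of blocks which are homogeneous in a subfamily are homogeneous -/
theorem hm_more {V : Type} {R : Interp S ar V} {q q' t t' : ℕ} {u : Fin q × Fin t → V} (hu : Hm R u)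
    {e : Fin t' → Fin t} (he : Function.Injective e) {f : Fin q' → Fin q} (hf : Function.Injective f) (hq' : 2 ≤ q')
    (hw : Hm R (fun p : Fin q' × Fin t' => u (f p.1, e p.2))) : Hm R (fun p : Fin q × Fin t' => u (p.1, e p.2)) := by
  have hinj : Function.Injective (fun p : Fin q × Fin t' => u (p.1, e p.2)) := by
    rintro ⟨a, x⟩ ⟨b, y⟩ h
    have h1 := hu.1 h
    rw [Prod.mk.injEq] at h1
    exact Prod.ext h1.1 (he h1.2)
  refine hm_of_swap hinj fun a b hab => ?_
  let c : Fin q' := ⟨0, by omega⟩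
  let d : Fin q' := ⟨1, by omega⟩
  have hcd : c ≠ d := by
    intro h
    have := congrArg Fin.val h
    simp [c, d] at this
  -- a permutation of the blocks
  obtain ⟨π, hπc, hπd⟩ : ∃ π : Equiv.Perm (Fin q), π (f c) = a ∧ π (f d) = b := by
    let π₁ := Equiv.swap (f c) a
    have h1 : π₁ (f c) = a := Equiv.swap_apply_left _ _
    have h2 : π₁ (f d) ≠ a := by
      intro h
      exact hcd (hf (π₁.injective (h1.trans h.symm)))
    refine ⟨Equiv.swap (π₁ (f d)) b * π₁, ?_, ?_⟩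
    · rw [Equiv.Perm.mul_apply, h1, Equiv.swap_apply_of_ne_of_ne h2.symm hab]
    · rw [Equiv.Perm.mul_apply, Equiv.swap_apply_left]
  set w : Fin q' × Fin t' → V := fun p => u (f p.1, e p.2) with hwdef
  set σ := bm u hu.1 π with hσ
  set τ := bm w hw.1 (Equiv.swap c d) with hτ
  have hσR : Au R σ := hu.bm π
  have hτR : Au R τ := hw.bm _
  have hσc : ∀ x, σ (w (c, x)) = u (a, e x) := by
    intro x
    show σ (u (f c, e x)) = _
    rw [hσ, bm_apply, hπc]
  have hσd : ∀ x, σ (w (d, x)) = u (b, e x) := by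
    intro x
    show σ (u (f d, e x)) = _
    rw [hσ, bm_apply, hπd]
  have key : ∀ z, bm (fun p : Fin q × Fin t' => u (p.1, e p.2)) hinj (Equiv.swap a b) (σ z) = σ (τ z) := by
    intro z
    by_cases h1 : ∃ x, w (c, x) = z
    · obtain ⟨x, rfl⟩ := h1
      have h2 := bm_apply (fun p : Fin q × Fin t' => u (p.1, e p.2)) hinj (Equiv.swap a b) a x
      rw [Equiv.swap_apply_left] at h2
      have h4 : τ (w (c, x)) = w (d, x) := by
        rw [hτ]
        refine (bm_apply w hw.1 (Equiv.swap c d) c x).trans ?_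
        rw [Equiv.swap_apply_left]
      rw [hσc, h4, hσd]
      exact h2
    · by_cases h3 : ∃ x, w (d, x) = z
      · obtain ⟨x, rfl⟩ := h3
        have h2 := bm_apply (fun p : Fin q × Fin t' => u (p.1, e p.2)) hinj (Equiv.swap a b) b x
        rw [Equiv.swap_apply_right] at h2
        have h4 : τ (w (d, x)) = w (c, x) := by
          rw [hτ]
          refine (bm_apply w hw.1 (Equiv.swap c d) d x).trans ?_
          rw [Equiv.swap_apply_right]
        rw [hσd, h4, hσc]
        exact h2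
      · push Not at h1 h3
        rw [hτ, bm_swap_off w hw.1 c d z h1 h3]
        refine bm_swap_off _ hinj a b _ (fun x h => ?_) (fun x h => ?_)
        · exact h1 x (σ.injective ((hσc x).trans h))
        · exact h3 x (σ.injective ((hσd x).trans h))
  intro s v
  let v' : Fin (ar s) → V := σ.symm ∘ v
  have hv : v = σ ∘ v' := by
    funext i
    exact (σ.apply_symm_apply _).symm
  have h1 : (bm (fun p : Fin q × Fin t' => u (p.1, e p.2)) hinj (Equiv.swap a b)) ∘ (σ ∘ v') = σ ∘ (τ ∘ v') := by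
    funext i
    exact key (v' i)
  rw [hv, h1]
  exact (hσR s (τ ∘ v')).trans ((hτR s v').trans (hσR s v').symm)

/-- an irreducible family stays irreducible when a block is removed -/
theorem irr_rs {V : Type} {R : Interp S ar V} {r k q t : ℕ} (hr : ∀ s, ar s ≤ r) {u : Fin (q + 1) × Fin t → V}
    (hu : Irr R u) (htk : t ≤ k) (hq : r + 2 * k + 2 ≤ q) (i : Fin (q + 1)) :
    ∃ u' : Fin q × Fin t → off u i, Irr (rs R (off u i)) u' := by
  have hoff : ∀ p : Fin q × Fin t, u (i.succAbove p.1, p.2) ∈ off u i := by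
    intro p x h
    have h1 := hu.1.1 h
    rw [Prod.mk.injEq] at h1
    exact Fin.succAbove_ne i p.1 h1.1.symm
  have hfew := hu.1.fewer53 i.succAbove Fin.succAbove_right_injective
  refine ⟨fun p => ⟨u (i.succAbove p.1, p.2), hoff p⟩, hm_rs hfew, hu.2.1, fun t' e he h1 h2 h3 => ?_⟩
  have h4 := lift hr hu.1 (by omega) i (w := fun p : Fin q × Fin t' => (⟨u (i.succAbove p.1, e p.2), hoff (p.1, e p.2)⟩ : off u i))
    (k := k) (by omega) h3
  exact hu.2.2 t' e he h1 h2 (hm_more hu.1 he Fin.succAbove_right_injective (by omega) h4)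

/-- removal of several blocks -/
theorem rem_blocks {r k N : ℕ} (hr : ∀ s, ar s ≤ r) (hN : r + 2 * k + 2 ≤ N) (P : ∀ V : Type, Interp S ar V → Prop)
    (hdown : ∀ (V : Type) (R : Interp S ar V), Finite V → P V R → ∀ q t : ℕ, N ≤ q → t ≤ k →
      ∀ u : Fin q × Fin t → V, Hm R u → ∀ i, P (off u i) (rs R (off u i))) {M t : ℕ} (hM : N ≤ M) (htk : t ≤ k) :
    ∀ (j : ℕ) (V : Type) (R : Interp S ar V), Finite V → P V R → ∀ u : Fin (M + j) × Fin t → V, Irr R u →
      ∃ (V' : Type) (R' : Interp S ar V'), Finite V' ∧ P V' R' ∧ Nat.card V' + j * t = Nat.card V ∧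
        Nat.card (Quot (Rl R k N)) ≤ Nat.card (Quot (Rl R' k N)) := by
  intro j
  induction j with
  | zero => exact fun V R hV hP u hu => ⟨V, R, hV, hP, by simp, le_rfl⟩
  | succ j ih =>
    intro V R hV hP u hu
    have i : Fin (M + j + 1) := ⟨0, by omega⟩
    obtain ⟨u', hu'⟩ := irr_rs (q := M + j) hr hu htk (by omega) i
    have hP' := hdown V R hV hP (M + j + 1) t (by omega) htk u hu.1 i
    have hbig : Big R k N u := ⟨hu, htk, by omega⟩
    have hle := cls_le hr hN hbig i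
    have hfin : Finite (off u i) := Subtype.finite
    obtain ⟨V', R', h1, h2, h3, h4⟩ := ih (off u i) (rs R (off u i)) hfin hP' u' hu'
    refine ⟨V', R', h1, h2, ?_, hle.trans h4⟩
    -- the number of points
    have h5 : Nat.card (off u i) + t = Nat.card V := by
      classical
      have := Fintype.ofFinite V
      have hinj : Function.Injective fun x : Fin t => u (i, x) := fun x y h => (Prod.ext_iff.1 (hu.1.1 h)).2
      have e : off u i ≃ {z : V // ¬ z ∈ Set.range fun x : Fin t => u (i, x)} :=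
        Equiv.subtypeEquivRight fun z => by
          simp [off]
      have h6 : Nat.card (Set.range fun x : Fin t => u (i, x)) = t := by
        rw [← Nat.card_congr (Equiv.ofInjective _ hinj), Nat.card_eq_fintype_card, Fintype.card_fin]
      have h7 : Nat.card {z : V // z ∈ Set.range fun x : Fin t => u (i, x)} +
          Nat.card {z : V // ¬ z ∈ Set.range fun x : Fin t => u (i, x)} = Nat.card V := by
        rw [← Nat.card_sum]
        exact Nat.card_congr (Equiv.sumCompl _)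
      have h8 : Nat.card {z : V // z ∈ Set.range fun x : Fin t => u (i, x)} = t := h6
      rw [Nat.card_congr e]
      omega
    have h6 : (j + 1) * t = j * t + t := by ring
    omega

/-- the number of classes is bounded, on a residue class -/
theorem cls_bdd_res {r k N₀ p ρ : ℕ} (hr : ∀ s, ar s ≤ r) (hp1 : 1 ≤ p) (hp : ∀ t, 1 ≤ t → t ≤ k → t ∣ p)
    (P : ∀ V : Type, Interp S ar V → Prop)
    (hfam : ∀ q : ℕ, ∃ n₀ : ℕ, ∀ (V : Type) (R : Interp S ar V), Finite V → P V R → Nat.card V % p = ρ →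
      n₀ ≤ Nat.card V → ∃ t, 1 ≤ t ∧ t ≤ k ∧ ∃ u : Fin q × Fin t → V, Hm R u)
    (hdown : ∃ q₀ : ℕ, ∀ (V : Type) (R : Interp S ar V), Finite V → P V R → ∀ q t : ℕ, q₀ ≤ q → t ≤ k →
      ∀ u : Fin q × Fin t → V, Hm R u → ∀ i, P (off u i) (rs R (off u i))) :
    ∃ N, N₀ ≤ N ∧ ∃ C, ∀ (V : Type) (R : Interp S ar V), Finite V → P V R → Nat.card V % p = ρ →
      Nat.card (Quot (Rl R k N)) ≤ C := by
  obtain ⟨q₀, hdown⟩ := hdown
  set N := N₀ + (r + 2 * k + 2) + q₀ with hN
  obtain ⟨n₀, hn₀⟩ := hfam (N + p)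
  refine ⟨N, by omega, n₀, ?_⟩
  have key : ∀ (m : ℕ) (V : Type) (R : Interp S ar V), Finite V → Nat.card V = m → P V R → Nat.card V % p = ρ →
      Nat.card (Quot (Rl R k N)) ≤ n₀ := by
    intro m
    induction m using Nat.strong_induction_on with
    | _ m ih =>
      intro V R hV hm hP hres
      by_cases h1 : Nat.card V ≤ n₀
      · exact (Nat.card_le_card_of_surjective (Quot.mk (Rl R k N)) Quot.exists_rep).trans h1
      · obtain ⟨t, ht1, htk, u, hu⟩ := hn₀ V R hV hP hres (by omega)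
        obtain ⟨t', e, he, h2, h3, h4⟩ := irr_of hu ht1
        obtain ⟨j, hj⟩ := hp t' h2 (h3.trans htk)
        have hjp : j ≤ p := by
          rw [hj]
          exact Nat.le_mul_of_pos_left j h2
        obtain ⟨M, hM⟩ : ∃ M, N + p = M + j := ⟨N + p - j, by omega⟩
        have h5 : ∃ u'' : Fin (M + j) × Fin t' → V, Irr R u'' := hM ▸ ⟨_, h4⟩
        obtain ⟨u'', hu''⟩ := h5
        obtain ⟨V', R', h6, h7, h8, h9⟩ := rem_blocks (N := N) hr (by omega) P
          (fun V R hV hP q t hq ht u hu i => hdown V R hV hP q t (by omega) ht u hu i) (M := M) (t := t')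
          (by omega) (h3.trans htk) j V R hV hP u'' hu''
        have h10 : j * t' = p := by rw [hj, mul_comm]
        rw [h10] at h8
        refine h9.trans (ih _ (by omega) V' R' h6 rfl h7 ?_)
        rw [← hres, ← h8, Nat.add_mod_right]
  intro V R hV hP
  exact key _ V R hV rfl hP

/-- all models with `n ≡ ρ` points have decompositions of bounded size -/
theorem exists_dec_res [Finite S] (φ : SFm (RelLang S ar) 0 0) {k p ρ : ℕ} (hk : 1 ≤ k) (hp1 : 1 ≤ p)
    (hp : ∀ t, 1 ≤ t → t ≤ k → t ∣ p) (h : FamR φ k p ρ) :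
    ∃ C : ℕ, ∀ (V : Type) (R : Interp S ar V), Finite V → (∃ _ : Fintype V, SatM φ R) → Nat.card V % p = ρ →
      Dec R k C := by
  obtain ⟨r, hr⟩ := exists_ar ar
  obtain ⟨q₀, hq₀⟩ := down φ k
  obtain ⟨N, hN, C, hC⟩ := cls_bdd_res (k := k) (N₀ := 2 * k + r + 4) hr hp1 hp
    (fun (V : Type) (R : Interp S ar V) => ∃ _ : Fintype V, SatM φ R)
    (fun q => h.any q) ⟨q₀, fun V R _ hs q t hq ht u hu i => by
      obtain ⟨_, hs⟩ := hs
      exact ⟨Fintype.ofFinite _, @hq₀ V _ R hs q t hq ht u hu i (Fintype.ofFinite _)⟩⟩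
  exact ⟨C, fun V R _ hs hres => dec_of hr hN hk (hC V R inferInstance hs hres)⟩

/-- the upper bound on a residue class -/
theorem upper_res [Finite S] (φ : SFm (RelLang S ar) 0 0) {k p ρ : ℕ} (hk : 1 ≤ k) (hp1 : 1 ≤ p)
    (hp : ∀ t, 1 ≤ t → t ≤ k → t ∣ p) (h : FamR φ k p ρ) :
    ∃ C : ℕ, ∀ n, 1 ≤ n → n % p = ρ → countM φ n ^ k ≤ C ^ n * n ^ ((k - 1) * n) := by
  obtain ⟨C, hC⟩ := exists_dec_res φ hk hp1 hp h
  obtain ⟨D, hD⟩ := count_dec (S := S) (ar := ar) k C hk
  refine ⟨D, fun n hn hres => le_trans (Nat.pow_le_pow_left ?_ k) (hD n hn)⟩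
  have : Finite (Interp S ar (Fin n)) := Pi.finite
  unfold countM
  refine Nat.card_le_card_of_injective (fun R : {R : Interp S ar (Fin n) // SatM φ R} =>
    (⟨R.1, hC (Fin n) R.1 inferInstance ⟨inferInstance, R.2⟩ (by
      rw [Nat.card_eq_fintype_card, Fintype.card_fin]
      exact hres)⟩ : {R : Interp S ar (Fin n) // Dec R k C})) ?_
  intro a b hab
  exact Subtype.ext (congrArg (fun x : {R : Interp S ar (Fin n) // Dec R k C} => x.1) hab)

end Pool.Agent.Helper53.AJ
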