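import Pool.Agent.Helper53.AJ.AllN

/-!
# Growth of the number of models at all `n`

`all_n` is in `Pool.Agent.Helper53.AJ.AllN`.
-/
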