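import Pool.Agent.Helper83.AJ.Res
import Pool.Agent.Helper20.EP.At
import Pool.Agent.Helper53.AJ.Main

/-!
# Growth of the number of models at all `n`: exponential polynomials on residue classes
-/

set_option autoImplicit false

namespace Pool.Agent.Helper53.AJ

open FirstOrder Pool.Agent.Helper20.Spectra Pool.Agent.Helper58.QD Pool.Agent.Helper14.SS
open Pool.Agent.Helper31.QD (Au)
open Pool.Agent.Helper40.MCM
open Pool.Agent.Helper40.MC (FinAP)
open Pool.Agent.Helper29.MW (MFm MSat)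
open Pool.Agent.Helper83.FM (NT)
open Pool.Agent.Helper83.EP (aN EP)
open Filter

variable {S : Type} {ar : S → ℕ}

/-- the number of models is the exponential polynomial `P` for the large `n ≡ ρ` -/
def EPon (φ : SFm (RelLang S ar) 0 0) {m : ℕ} (P : Fin m → Polynomial ℚ) (p ρ : ℕ) : Prop :=
  ∀ᶠ n : ℕ in atTop, n % p = ρ → (countM φ n : ℚ) = ∑ j, (P j).eval (n : ℚ) * ((j : ℕ) + 1 : ℚ) ^ n

/-- `N(n) = n ^ ((1 - 1 / j) n)` up to factors `C ^ n` for the large `n ≡ ρ` -/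
def GrOn (φ : SFm (RelLang S ar) 0 0) (C p ρ j : ℕ) : Prop :=
  ∀ᶠ n : ℕ in atTop, n % p = ρ → countM φ n ^ j ≤ C ^ n * n ^ ((j - 1) * n) ∧
    n ^ ((j - 1) * n) ≤ C ^ n * countM φ n ^ j

/-- a decomposition into blocks of one point gives few twin classes -/
theorem nt_le_of_dec {n C : ℕ} {R : Interp S ar (Fin n)} (h : Dec R 1 C) {T : Finset (Fin n)} (hT : NT R T) :
    T.card ≤ C := by
  classical
  obtain ⟨q, t, v, hv, ht, hm⟩ := h
  let e := Equiv.ofBijective v hv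
  have h1 : T.card ≤ (Finset.univ : Finset (Fin C)).card := by
    refine Finset.card_le_card_of_injOn (fun x => (e.symm x).1) (fun x _ => Finset.mem_coe.2 (Finset.mem_univ _)) ?_
    intro x hx y hy hxy
    by_contra hne
    refine hT x (Finset.mem_coe.1 hx) y (Finset.mem_coe.1 hy) hne ?_
    obtain ⟨⟨c, i, a⟩, rfl⟩ := hv.2 x
    obtain ⟨⟨c', j, b⟩, rfl⟩ := hv.2 y
    have e1 : e.symm (v ⟨c, i, a⟩) = ⟨c, i, a⟩ := e.symm_apply_apply ⟨c, i, a⟩
    have e2 : e.symm (v ⟨c', j, b⟩) = ⟨c', j, b⟩ := e.symm_apply_apply ⟨c', j, b⟩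
    simp only [e1, e2] at hxy
    subst hxy
    have hsub : ∀ a b : Fin (t c), a = b := by
      intro a b
      have := ht c
      apply Fin.ext
      have h1 := a.2
      have h2 := b.2
      omega
    have hab := hsub a b
    subst hab
    have hij : i ≠ j := by
      rintro rfl
      exact hne rfl
    refine (hm c).2 (Equiv.swap i j) _ (fun i' a' => ?_) (fun z hz => ?_)
    · have h3 := hsub a' a
      subst h3
      show Equiv.swap (v ⟨c, i, a'⟩) (v ⟨c, j, a'⟩) (v ⟨c, i', a'⟩) = v ⟨c, Equiv.swap i j i', a'⟩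
      by_cases h4 : i' = i
      · subst h4
        rw [Equiv.swap_apply_left, Equiv.swap_apply_left]
      · by_cases h5 : i' = j
        · subst h5
          rw [Equiv.swap_apply_right, Equiv.swap_apply_right]
        · rw [Equiv.swap_apply_of_ne_of_ne h4 h5, Equiv.swap_apply_of_ne_of_ne]
          · intro h6
            have := hv.1 h6
            simp only [Sigma.mk.injEq, heq_eq_eq, Prod.mk.injEq, true_and, and_true] at this
            exact h4 this
          · intro h6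
            have := hv.1 h6
            simp only [Sigma.mk.injEq, heq_eq_eq, Prod.mk.injEq, true_and, and_true] at this
            exact h5 this
    · exact Equiv.swap_apply_of_ne_of_ne (hz (i, a)).symm (hz (j, a)).symm
  rwa [Finset.card_univ, Fintype.card_fin] at h1

/-- **The number of models at all `n`**, over the two last blocks -/
theorem all_n_of [Finite S]
    (hlow : ∀ (φ : SFm (RelLang S ar) 0 0) {k p ρ : ℕ}, 2 ≤ k → k ∣ p → FamR φ k p ρ → ¬ FamR φ (k - 1) p ρ →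
      ∃ C n₀ : ℕ, ∀ n, n₀ ≤ n → n % p = ρ → n ^ ((k - 1) * n) ≤ C ^ n * countM φ n ^ k)
    (φ : SFm (RelLang S ar) 0 0) (h : FamBdd φ) :
    ∃ (k p C m : ℕ) (P : Fin m → Polynomial ℚ), 1 ≤ k ∧ 1 ≤ p ∧ FinAP k (specM φ) ∧
      (∀ n, 1 ≤ n → countM φ n ^ k ≤ C ^ n * n ^ ((k - 1) * n)) ∧
      (∀ ρ, EPon φ P p ρ ∨ ∃ j, 2 ≤ j ∧ j ≤ k ∧ GrOn φ C p ρ j) ∧
      (2 ≤ k → ∃ ρ, ρ < p ∧ GrOn φ C p ρ k) ∧ (k = 1 → p = 1) := by
  classical
  have hex : ∃ k, FamK φ k := h
  -- the least `k`, but at least 1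
  obtain ⟨k, hk1, hk, hkmin⟩ : ∃ k, 1 ≤ k ∧ FamK φ k ∧ (2 ≤ k → ¬ FamK φ (k - 1)) := by
    by_cases h1 : FamK φ 1
    · exact ⟨1, le_rfl, h1, fun h => absurd h (by omega)⟩
    · refine ⟨Nat.find hex, ?_, Nat.find_spec hex, fun h2 => Nat.find_min hex (by omega)⟩
      by_contra hcon
      exact h1 ((Nat.find_spec hex).mono (by omega))
  set p := k.factorial with hpd
  have hp1 : 1 ≤ p := Nat.factorial_pos k
  have hdiv : ∀ t, 1 ≤ t → t ≤ k → t ∣ p := fun t h1 h2 => Nat.dvd_factorial h1 h2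
  obtain ⟨C₀, hC₀⟩ := upper φ k hk1 hk
  -- the exponential polynomial
  have hrr : ∀ ρ, ∃ r, FamR φ 1 p ρ → ∀ n, n % p = ρ → ∀ (R : Interp S ar (Fin n)) (T : Finset (Fin n)), SatM φ R →
      NT R T → T.card ≤ r := by
    intro ρ
    by_cases h1 : FamR φ 1 p ρ
    · obtain ⟨r, hr⟩ := exists_dec_res φ le_rfl hp1 (fun t h1 h2 => by
        obtain rfl : t = 1 := le_antisymm h2 h1
        exact one_dvd p) h1
      refine ⟨r, fun _ n hn R T hR hT => nt_le_of_dec (hr (Fin n) R inferInstance ⟨inferInstance, hR⟩ ?_) hT⟩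
      rw [Nat.card_eq_fintype_card, Fintype.card_fin]
      exact hn
    · exact ⟨0, fun h => absurd h h1⟩
  choose rr hrr using hrr
  obtain ⟨m, P, hP⟩ := Pool.Agent.Helper83.EP.exp_poly_at φ (∑ ρ ∈ Finset.range p, rr ρ)
  have hEP : ∀ ρ, ρ < p → FamR φ 1 p ρ → EPon φ P p ρ := by
    intro ρ hρ h1
    filter_upwards [hP] with n hn hres
    refine hn fun R T hR hT => (hrr ρ h1 n hres R T hR hT).trans ?_
    exact Finset.single_le_sum (f := rr) (fun _ _ => Nat.zero_le _) (Finset.mem_range.2 hρ)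
  -- one class
  have hcls : ∀ ρ, FamR φ 1 p ρ ∨ ∃ j, 2 ≤ j ∧ j ≤ k ∧ FamR φ j p ρ ∧ ¬ FamR φ (j - 1) p ρ ∧ ∃ C, GrOn φ C p ρ j := by
    intro ρ
    by_cases h1 : FamR φ 1 p ρ
    · exact Or.inl h1
    · right
      have hex' : ∃ j, FamR φ j p ρ := ⟨k, hk.res p ρ⟩
      have h2 : 2 ≤ Nat.find hex' := by
        by_contra hcon
        exact h1 ((Nat.find_spec hex').mono (by omega))
      have h3 : Nat.find hex' ≤ k := Nat.find_min' hex' (hk.res p ρ)
      have h4 : ¬ FamR φ (Nat.find hex' - 1) p ρ := Nat.find_min hex' (by omega)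
      refine ⟨Nat.find hex', h2, h3, Nat.find_spec hex', h4, ?_⟩
      obtain ⟨C₁, hC₁⟩ := upper_res φ (k := Nat.find hex') (by omega) hp1 (fun t h1 h5 => hdiv t h1 (h5.trans h3))
        (Nat.find_spec hex')
      obtain ⟨C₂, n₀, hC₂⟩ := hlow φ h2 (hdiv _ (by omega) h3) (Nat.find_spec hex') h4
      refine ⟨max C₁ C₂, ?_⟩
      filter_upwards [eventually_ge_atTop n₀, eventually_ge_atTop 1] with n hn hn1 hres
      refine ⟨(hC₁ n hn1 hres).trans ?_, (hC₂ n hn hres).trans ?_⟩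
      · exact Nat.mul_le_mul_right _ (Nat.pow_le_pow_left (le_max_left _ _) n)
      · exact Nat.mul_le_mul_right _ (Nat.pow_le_pow_left (le_max_right _ _) n)
  have hmono : ∀ {C C' ρ j : ℕ}, C ≤ C' → GrOn φ C p ρ j → GrOn φ C' p ρ j := by
    intro C C' ρ j hC h
    filter_upwards [h] with n hn hres
    obtain ⟨h1, h2⟩ := hn hres
    exact ⟨h1.trans (Nat.mul_le_mul_right _ (Nat.pow_le_pow_left hC n)),
      h2.trans (Nat.mul_le_mul_right _ (Nat.pow_le_pow_left hC n))⟩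
  -- one constant for all classes
  let D : ℕ → ℕ := fun ρ => if h : ∃ C, ∃ j, 2 ≤ j ∧ j ≤ k ∧ FamR φ j p ρ ∧ ¬ FamR φ (j - 1) p ρ ∧ GrOn φ C p ρ j then h.choose else 0
  have hD : ∀ ρ, ρ < p → D ρ ≤ C₀ + ∑ ρ ∈ Finset.range p, D ρ := fun ρ hρ =>
    (Finset.single_le_sum (f := D) (fun _ _ => Nat.zero_le _) (Finset.mem_range.2 hρ)).trans (Nat.le_add_left _ _)
  have hcls' : ∀ ρ, ρ < p → EPon φ P p ρ ∨ ∃ j, 2 ≤ j ∧ j ≤ k ∧ FamR φ j p ρ ∧ ¬ FamR φ (j - 1) p ρ ∧
      GrOn φ (C₀ + ∑ ρ ∈ Finset.range p, D ρ) p ρ j := by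
    intro ρ hρ
    rcases hcls ρ with h1 | ⟨j, h1, h2, h3, h4, C, h5⟩
    · exact Or.inl (hEP ρ hρ h1)
    · right
      have hE : ∃ C, ∃ j, 2 ≤ j ∧ j ≤ k ∧ FamR φ j p ρ ∧ ¬ FamR φ (j - 1) p ρ ∧ GrOn φ C p ρ j :=
        ⟨C, j, h1, h2, h3, h4, h5⟩
      obtain ⟨j', h6, h7, h8, h9, h10⟩ := hE.choose_spec
      refine ⟨j', h6, h7, h8, h9, hmono ?_ h10⟩
      have : D ρ = hE.choose := dif_pos hE
      rw [← this]
      exact hD ρ hρ
  refine ⟨k, p, C₀ + ∑ ρ ∈ Finset.range p, D ρ, m, P, hk1, hp1, Pool.Agent.Helper58.MC.finAP_of_upper φ hk1 hC₀,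
    fun n hn => (hC₀ n hn).trans (Nat.mul_le_mul_right _ (Nat.pow_le_pow_left (Nat.le_add_right _ _) n)), ?_, ?_, ?_⟩
  · intro ρ
    rcases lt_or_ge ρ p with hρ | hρ
    · rcases hcls' ρ hρ with h1 | ⟨j, h1, h2, -, -, h3⟩
      · exact Or.inl h1
      · exact Or.inr ⟨j, h1, h2, h3⟩
    · left
      refine Eventually.of_forall fun n hn => ?_
      have := Nat.mod_lt n (show 0 < p by omega)
      omega
  · intro hk2
    by_contra hcon
    push Not at hcon
    apply hkmin hk2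
    -- all classes have families with smaller blocks
    have hall : ∀ ρ, ρ < p → FamR φ (k - 1) p ρ := by
      intro ρ hρ
      by_contra hno
      have h1 : ¬ FamR φ 1 p ρ := fun h => hno (h.mono (by omega))
      have hex' : ∃ j, FamR φ j p ρ := ⟨k, hk.res p ρ⟩
      -- the least `j` is `k`
      have hfind : Nat.find hex' = k := by
        refine le_antisymm (Nat.find_min' hex' (hk.res p ρ)) ?_
        by_contra hlt
        exact hno ((Nat.find_spec hex').mono (by omega))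
      obtain ⟨C₁, hC₁⟩ := upper_res φ (k := k) hk1 hp1 hdiv (hk.res p ρ)
      obtain ⟨C₂, n₀, hC₂⟩ := hlow φ hk2 (hdiv _ (by omega) le_rfl) (hk.res p ρ) hno
      have hgr : GrOn φ (max C₁ C₂) p ρ k := by
        filter_upwards [eventually_ge_atTop n₀, eventually_ge_atTop 1] with n hn hn1 hres
        refine ⟨(hC₁ n hn1 hres).trans ?_, (hC₂ n hn hres).trans ?_⟩
        · exact Nat.mul_le_mul_right _ (Nat.pow_le_pow_left (le_max_left _ _) n)
        · exact Nat.mul_le_mul_right _ (Nat.pow_le_pow_left (le_max_right _ _) n)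
      -- in `D ρ` the number `j` is `k` as well
      have hE : ∃ C, ∃ j, 2 ≤ j ∧ j ≤ k ∧ FamR φ j p ρ ∧ ¬ FamR φ (j - 1) p ρ ∧ GrOn φ C p ρ j :=
        ⟨_, k, hk2, le_rfl, hk.res p ρ, hno, hgr⟩
      obtain ⟨j', h6, h7, h8, h9, h10⟩ := hE.choose_spec
      have hj' : j' = k := by
        refine le_antisymm h7 ?_
        by_contra hlt
        exact hno (h8.mono (by omega))
      subst hj'
      refine hcon ρ hρ (hmono ?_ h10)
      have : D ρ = hE.choose := dif_pos hE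
      rw [← this]
      exact hD ρ hρ
    intro q
    choose n₀ hn₀ using fun ρ : Fin p => hall ρ.1 ρ.2 q
    refine ⟨∑ ρ : Fin p, n₀ ρ, fun n hn R hR => ?_⟩
    have hlt : n % p < p := Nat.mod_lt n (by omega)
    refine hn₀ ⟨n % p, hlt⟩ n (le_trans ?_ hn) rfl R hR
    exact Finset.single_le_sum (f := n₀) (fun _ _ => Nat.zero_le _) (Finset.mem_univ _)
  · intro h1
    rw [hpd, h1]
    rfl

end Pool.Agent.Helper53.AJ
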