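import Pool.Agent.Helper83.AJ.AllN0

/-!
# Growth of the number of models at all `n`
-/

set_option autoImplicit false

namespace Pool.Agent.Helper53.AJ

open FirstOrder Pool.Agent.Helper20.Spectra Pool.Agent.Helper58.QD Pool.Agent.Helper14.SS
open Pool.Agent.Helper31.QD (Au)
open Pool.Agent.Helper40.MCM
open Pool.Agent.Helper40.MC (FinAP)
open Pool.Agent.Helper29.MW (MFm MSat)
open Pool.Agent.Helper83.FM (NT)
open Pool.Agent.Helper83.EP (aN EP)
open Filter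

variable {S : Type} {ar : S → ℕ}

/-- **The number of models at all `n`**, over the lower bound on residue classes -/
theorem all_n_of2 [Finite S]
    (hlow : ∀ (φ : SFm (RelLang S ar) 0 0) {k p ρ : ℕ}, 2 ≤ k → k ∣ p → FamR φ k p ρ → ¬ FamR φ (k - 1) p ρ →
      ∃ C n₀ : ℕ, ∀ n, n₀ ≤ n → n % p = ρ → n ^ ((k - 1) * n) ≤ C ^ n * countM φ n ^ k)
    (φ : SFm (RelLang S ar) 0 0) (h : FamBdd φ) :
    ∃ k, 1 ≤ k ∧ FinAP k (specM φ) ∧ ∃ (p : ℕ) (j : ℕ → ℕ), 1 ≤ p ∧ (∀ n, j (n + p) = j n) ∧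
      (∀ n, 1 ≤ j n ∧ j n ≤ k) ∧ (∃ n, j n = k) ∧ ∃ (C d : ℕ) (P : Fin d → Polynomial ℚ), ∀ᶠ n : ℕ in Filter.atTop,
        (j n = 1 → (countM φ n : ℚ) = ∑ i, (P i).eval (n : ℚ) * ((i : ℕ) + 1 : ℚ) ^ n) ∧
        (2 ≤ j n → countM φ n ^ j n ≤ C ^ n * n ^ ((j n - 1) * n) ∧
          n ^ ((j n - 1) * n) ≤ C ^ n * countM φ n ^ j n) := by
  classical
  have hex : ∃ k, FamK φ k := h
  -- the least `k`, but at least 1
  obtain ⟨k, hk1, hk, hkmin⟩ : ∃ k, 1 ≤ k ∧ FamK φ k ∧ (2 ≤ k → ¬ FamK φ (k - 1)) := by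
    by_cases h1 : FamK φ 1
    · exact ⟨1, le_rfl, h1, fun h => absurd h (by omega)⟩
    · refine ⟨Nat.find hex, ?_, Nat.find_spec hex, fun h2 => Nat.find_min hex (by omega)⟩
      by_contra hcon
      exact h1 ((Nat.find_spec hex).mono (by omega))
  set p := k.factorial with hpd
  have hp1 : 1 ≤ p := Nat.factorial_pos k
  have hdiv : ∀ t, 1 ≤ t → t ≤ k → t ∣ p := fun t h1 h2 => Nat.dvd_factorial h1 h2
  obtain ⟨C₀, hC₀⟩ := upper φ k hk1 hk
  -- the exponential polynomial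
  have hrr : ∀ ρ, ∃ r, FamR φ 1 p ρ → ∀ n, n % p = ρ → ∀ (R : Interp S ar (Fin n)) (T : Finset (Fin n)), SatM φ R →
      NT R T → T.card ≤ r := by
    intro ρ
    by_cases h1 : FamR φ 1 p ρ
    · obtain ⟨r, hr⟩ := exists_dec_res φ le_rfl hp1 (fun t h1 h2 => by
        obtain rfl : t = 1 := le_antisymm h2 h1
        exact one_dvd p) h1
      refine ⟨r, fun _ n hn R T hR hT => nt_le_of_dec (hr (Fin n) R inferInstance ⟨inferInstance, hR⟩ ?_) hT⟩
      rw [Nat.card_eq_fintype_card, Fintype.card_fin]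
      exact hn
    · exact ⟨0, fun h => absurd h h1⟩
  choose rr hrr using hrr
  obtain ⟨m, P, hP⟩ := Pool.Agent.Helper83.EP.exp_poly_at φ (∑ ρ ∈ Finset.range p, rr ρ)
  have hEP : ∀ ρ, ρ < p → FamR φ 1 p ρ → EPon φ P p ρ := by
    intro ρ hρ h1
    filter_upwards [hP] with n hn hres
    refine hn fun R T hR hT => (hrr ρ h1 n hres R T hR hT).trans ?_
    exact Finset.single_le_sum (f := rr) (fun _ _ => Nat.zero_le _) (Finset.mem_range.2 hρ)
  -- the least `j` of a class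
  have hJex : ∀ ρ, ∃ J, 1 ≤ J ∧ J ≤ k ∧ FamR φ J p ρ ∧ (2 ≤ J → ¬ FamR φ (J - 1) p ρ) := by
    intro ρ
    by_cases h1 : FamR φ 1 p ρ
    · exact ⟨1, le_rfl, hk1, h1, fun h => absurd h (by omega)⟩
    · have hex' : ∃ j, FamR φ j p ρ := ⟨k, hk.res p ρ⟩
      have h2 : 2 ≤ Nat.find hex' := by
        by_contra hcon
        exact h1 ((Nat.find_spec hex').mono (by omega))
      exact ⟨Nat.find hex', by omega, Nat.find_min' hex' (hk.res p ρ), Nat.find_spec hex',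
        fun _ => Nat.find_min hex' (by omega)⟩
  choose J hJ1 hJk hJF hJmin using hJex
  have hgr : ∀ ρ, ∃ C, 2 ≤ J ρ → GrOn φ C p ρ (J ρ) := by
    intro ρ
    by_cases h2 : 2 ≤ J ρ
    · obtain ⟨C₁, hC₁⟩ := upper_res φ (k := J ρ) (by omega) hp1 (fun t h1 h5 => hdiv t h1 (h5.trans (hJk ρ)))
        (hJF ρ)
      obtain ⟨C₂, n₀, hC₂⟩ := hlow φ h2 (hdiv _ (by omega) (hJk ρ)) (hJF ρ) (hJmin ρ h2)
      refine ⟨max C₁ C₂, fun _ => ?_⟩
      filter_upwards [eventually_ge_atTop n₀, eventually_ge_atTop 1] with n hn hn1 hres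
      refine ⟨(hC₁ n hn1 hres).trans ?_, (hC₂ n hn hres).trans ?_⟩
      · exact Nat.mul_le_mul_right _ (Nat.pow_le_pow_left (le_max_left _ _) n)
      · exact Nat.mul_le_mul_right _ (Nat.pow_le_pow_left (le_max_right _ _) n)
    · exact ⟨0, fun h => absurd h h2⟩
  choose D hD using hgr
  set C := ∑ ρ ∈ Finset.range p, D ρ with hCd
  have hDC : ∀ ρ, ρ < p → D ρ ≤ C := fun ρ hρ =>
    Finset.single_le_sum (f := D) (fun _ _ => Nat.zero_le _) (Finset.mem_range.2 hρ)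
  refine ⟨k, hk1, Pool.Agent.Helper58.MC.finAP_of_upper φ hk1 hC₀, p, fun n => J (n % p), hp1,
    fun n => congrArg J (Nat.add_mod_right n p), fun n => ⟨hJ1 _, hJk _⟩, ?_, C, m, P, ?_⟩
  · -- the maximum is attained
    by_contra hcon
    push Not at hcon
    have hk2 : 2 ≤ k := by
      by_contra h2
      have h3 := hcon 0
      have h4 := hJ1 (0 % p)
      have h5 := hJk (0 % p)
      omega
    apply hkmin hk2
    have hall : ∀ ρ, ρ < p → FamR φ (k - 1) p ρ := by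
      intro ρ hρ
      refine (hJF ρ).mono ?_
      have h3 := hcon ρ
      beta_reduce at h3
      rw [Nat.mod_eq_of_lt hρ] at h3
      have h5 := hJk ρ
      omega
    intro q
    choose n₀ hn₀ using fun ρ : Fin p => hall ρ.1 ρ.2 q
    refine ⟨∑ ρ : Fin p, n₀ ρ, fun n hn R hR => ?_⟩
    have hlt : n % p < p := Nat.mod_lt n (by omega)
    refine hn₀ ⟨n % p, hlt⟩ n (le_trans ?_ hn) rfl R hR
    exact Finset.single_le_sum (f := n₀) (fun _ _ => Nat.zero_le _) (Finset.mem_univ _)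
  · have hev : ∀ ρ ∈ Finset.range p, ∀ᶠ n : ℕ in atTop, n % p = ρ →
        (J ρ = 1 → (countM φ n : ℚ) = ∑ i, (P i).eval (n : ℚ) * ((i : ℕ) + 1 : ℚ) ^ n) ∧
        (2 ≤ J ρ → countM φ n ^ J ρ ≤ C ^ n * n ^ ((J ρ - 1) * n) ∧
          n ^ ((J ρ - 1) * n) ≤ C ^ n * countM φ n ^ J ρ) := by
      intro ρ hρ
      have hρ' := Finset.mem_range.1 hρ
      have h1 := hJ1 ρ
      rcases Nat.lt_or_ge (J ρ) 2 with h2 | h2
      · have h3 : J ρ = 1 := by omega
        have h4 := hJF ρ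
        rw [h3] at h4
        filter_upwards [hEP ρ hρ' h4] with n hn hres
        exact ⟨fun _ => hn hres, fun h => absurd h (by omega)⟩
      · filter_upwards [hD ρ h2] with n hn hres
        obtain ⟨h5, h6⟩ := hn hres
        refine ⟨fun h => absurd h (by omega), fun _ => ⟨h5.trans ?_, h6.trans ?_⟩⟩
        · exact Nat.mul_le_mul_right _ (Nat.pow_le_pow_left (hDC ρ hρ') n)
        · exact Nat.mul_le_mul_right _ (Nat.pow_le_pow_left (hDC ρ hρ') n)
    filter_upwards [(Filter.eventually_all_finset _).2 hev] with n hn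
    exact hn (n % p) (Finset.mem_range.2 (Nat.mod_lt n (by omega))) rfl

end Pool.Agent.Helper53.AJ
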