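import Pool.Agent.Helper83.AJ.AllN0
import Pool.Agent.Helper53.AJ.LowRes

/-!
# Growth of the number of models at all `n`: the exponent as a function of `n`
-/

set_option autoImplicit false

namespace Pool.Agent.Helper53.AJ

open FirstOrder Pool.Agent.Helper20.Spectra Pool.Agent.Helper58.QD Pool.Agent.Helper14.SS
open Pool.Agent.Helper31.QD (Au)
open Pool.Agent.Helper40.MCM
open Pool.Agent.Helper40.MC (FinAP)
open Pool.Agent.Helper29.MW (MFm MSat)
open Pool.Agent.Helper83.FM (NT)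
open Pool.Agent.Helper83.EP (aN EP)
open Filter

variable {S : Type} {ar : S → ℕ}

/-- two different growth rates exclude each other -/
theorem rate_le {m t J C C' N : ℕ} (hm : 1 ≤ m) (hJ : 1 ≤ J) (hJt : J < t)
    (h1 : m ^ ((t - 1) * m) ≤ C ^ m * N ^ t) (h2 : N ^ J ≤ C' ^ m * m ^ ((J - 1) * m)) : m ≤ C ^ J * C' ^ t := by
  have h3 : (m ^ ((t - 1) * m)) ^ J ≤ (C ^ m) ^ J * (C' ^ m * m ^ ((J - 1) * m)) ^ t :=
    calc (m ^ ((t - 1) * m)) ^ J ≤ (C ^ m * N ^ t) ^ J := Nat.pow_le_pow_left h1 J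
      _ = (C ^ m) ^ J * (N ^ J) ^ t := by
          rw [mul_pow, ← pow_mul N t J, ← pow_mul N J t, mul_comm t J]
      _ ≤ (C ^ m) ^ J * (C' ^ m * m ^ ((J - 1) * m)) ^ t :=
          Nat.mul_le_mul_left _ (Nat.pow_le_pow_left h2 t)
  have h4 : (C ^ m) ^ J * (C' ^ m * m ^ ((J - 1) * m)) ^ t = (C ^ J * C' ^ t) ^ m * m ^ ((J - 1) * t * m) := by
    rw [mul_pow, mul_pow, ← pow_mul, ← pow_mul, ← pow_mul, ← pow_mul, ← pow_mul, mul_comm m J, mul_comm m t, ← mul_assoc,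
      mul_right_comm (J - 1) m t]
  have h5 : (m ^ ((t - 1) * m)) ^ J = m ^ ((t - J) * m) * m ^ ((J - 1) * t * m) := by
    rw [← pow_mul, ← pow_add]
    congr 1
    obtain ⟨d, rfl⟩ : ∃ d, t = J + d := ⟨t - J, by omega⟩
    obtain ⟨J', rfl⟩ : ∃ J', J = J' + 1 := ⟨J - 1, by omega⟩
    have e1 : J' + 1 + d - 1 = J' + d := by omega
    have e2 : J' + 1 + d - (J' + 1) = d := by omega
    have e3 : J' + 1 - 1 = J' := by omega
    rw [e1, e2, e3]
    ring
  rw [h4, h5] at h3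
  have h6 : m ^ ((t - J) * m) ≤ (C ^ J * C' ^ t) ^ m := Nat.le_of_mul_le_mul_right h3 (Nat.pow_pos (by omega))
  have h7 : m ^ m ≤ (C ^ J * C' ^ t) ^ m := by
    refine le_trans (Nat.pow_le_pow_right (by omega) ?_) h6
    exact Nat.le_mul_of_pos_left m (by omega)
  exact (Nat.pow_le_pow_iff_left (by omega)).1 h7

/-- **The number of models at all `n`**, with the exponent as a function of `n` -/
theorem all_n2 [Finite S] (φ : SFm (RelLang S ar) 0 0) (h : FamBdd φ) :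
    ∃ k, 1 ≤ k ∧ FinAP k (specM φ) ∧ ∃ (A : ℕ → Set ℕ) (j : ℕ → ℕ),
      (∀ n, IsGreatest {t | 1 ≤ t ∧ t ≤ k ∧ n % t ∈ A t} (j n)) ∧ (∃ n, j n = k) ∧
      ∃ (C d : ℕ) (P : Fin d → Polynomial ℚ), ∀ᶠ n : ℕ in Filter.atTop,
        (j n = 1 → (countM φ n : ℚ) = ∑ i, (P i).eval (n : ℚ) * ((i : ℕ) + 1 : ℚ) ^ n) ∧
        (2 ≤ j n → countM φ n ^ j n ≤ C ^ n * n ^ ((j n - 1) * n) ∧
          n ^ ((j n - 1) * n) ≤ C ^ n * countM φ n ^ j n) := by
  classical
  have hex : ∃ k, FamK φ k := h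
  -- the least `k`, but at least 1
  obtain ⟨k, hk1, hk, hkmin⟩ : ∃ k, 1 ≤ k ∧ FamK φ k ∧ (2 ≤ k → ¬ FamK φ (k - 1)) := by
    by_cases h1 : FamK φ 1
    · exact ⟨1, le_rfl, h1, fun h => absurd h (by omega)⟩
    · refine ⟨Nat.find hex, ?_, Nat.find_spec hex, fun h2 => Nat.find_min hex (by omega)⟩
      by_contra hcon
      exact h1 ((Nat.find_spec hex).mono (by omega))
  set p := k.factorial with hpd
  have hp1 : 1 ≤ p := Nat.factorial_pos k
  have hdiv : ∀ t, 1 ≤ t → t ≤ k → t ∣ p := fun t h1 h2 => Nat.dvd_factorial h1 h2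
  obtain ⟨C₀, hC₀⟩ := upper φ k hk1 hk
  -- the exponential polynomial
  have hrr : ∀ ρ, ∃ r, FamR φ 1 p ρ → ∀ n, n % p = ρ → ∀ (R : Interp S ar (Fin n)) (T : Finset (Fin n)), SatM φ R →
      NT R T → T.card ≤ r := by
    intro ρ
    by_cases h1 : FamR φ 1 p ρ
    · obtain ⟨r, hr⟩ := exists_dec_res φ le_rfl hp1 (fun t h1 h2 => by
        obtain rfl : t = 1 := le_antisymm h2 h1
        exact one_dvd p) h1
      refine ⟨r, fun _ n hn R T hR hT => nt_le_of_dec (hr (Fin n) R inferInstance ⟨inferInstance, hR⟩ ?_) hT⟩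
      rw [Nat.card_eq_fintype_card, Fintype.card_fin]
      exact hn
    · exact ⟨0, fun h => absurd h h1⟩
  choose rr hrr using hrr
  obtain ⟨m, P, hP⟩ := Pool.Agent.Helper83.EP.exp_poly_at φ (∑ ρ ∈ Finset.range p, rr ρ)
  have hEP : ∀ ρ, ρ < p → FamR φ 1 p ρ → EPon φ P p ρ := by
    intro ρ hρ h1
    filter_upwards [hP] with n hn hres
    refine hn fun R T hR hT => (hrr ρ h1 n hres R T hR hT).trans ?_
    exact Finset.single_le_sum (f := rr) (fun _ _ => Nat.zero_le _) (Finset.mem_range.2 hρ)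
  -- the least `j` of a class
  have hJex : ∀ ρ, ∃ J, 1 ≤ J ∧ J ≤ k ∧ FamR φ J p ρ ∧ (2 ≤ J → ¬ FamR φ (J - 1) p ρ) := by
    intro ρ
    by_cases h1 : FamR φ 1 p ρ
    · exact ⟨1, le_rfl, hk1, h1, fun h => absurd h (by omega)⟩
    · have hex' : ∃ j, FamR φ j p ρ := ⟨k, hk.res p ρ⟩
      have h2 : 2 ≤ Nat.find hex' := by
        by_contra hcon
        exact h1 ((Nat.find_spec hex').mono (by omega))
      exact ⟨Nat.find hex', by omega, Nat.find_min' hex' (hk.res p ρ), Nat.find_spec hex',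
        fun _ => Nat.find_min hex' (by omega)⟩
  choose J hJ1 hJk hJF hJmin using hJex
  have hgr : ∀ ρ, ∃ C, 2 ≤ J ρ → GrOn φ C p ρ (J ρ) := by
    intro ρ
    by_cases h2 : 2 ≤ J ρ
    · obtain ⟨C₁, hC₁⟩ := upper_res φ (k := J ρ) (by omega) hp1 (fun t h1 h5 => hdiv t h1 (h5.trans (hJk ρ)))
        (hJF ρ)
      obtain ⟨C₂, n₀, hC₂'⟩ := lower_res φ (J ρ) p ρ h2 (hdiv _ (by omega) (hJk ρ)) (hJF ρ) (hJmin ρ h2)
      have hC₂ : ∀ n, n₀ ≤ n → n % p = ρ → n ^ ((J ρ - 1) * n) ≤ C₂ ^ n * countM φ n ^ J ρ := fun n hn hp => by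
        refine hC₂' n hn ?_
        rw [← hp]
        exact (Nat.mod_mod_of_dvd _ (hdiv _ (hJ1 _) (hJk _))).symm
      refine ⟨max C₁ C₂, fun _ => ?_⟩
      filter_upwards [eventually_ge_atTop n₀, eventually_ge_atTop 1] with n hn hn1 hres
      refine ⟨(hC₁ n hn1 hres).trans ?_, (hC₂ n hn hres).trans ?_⟩
      · exact Nat.mul_le_mul_right _ (Nat.pow_le_pow_left (le_max_left _ _) n)
      · exact Nat.mul_le_mul_right _ (Nat.pow_le_pow_left (le_max_right _ _) n)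
    · exact ⟨0, fun h => absurd h h2⟩
  choose D hD using hgr
  set C := ∑ ρ ∈ Finset.range p, D ρ with hCd
  have hDC : ∀ ρ, ρ < p → D ρ ≤ C := fun ρ hρ =>
    Finset.single_le_sum (f := D) (fun _ _ => Nat.zero_le _) (Finset.mem_range.2 hρ)
  refine ⟨k, hk1, Pool.Agent.Helper58.MC.finAP_of_upper φ hk1 hC₀, fun t => {a | t = 1 ∨ ∃ ρ, ρ < p ∧ J ρ = t ∧ ρ % t = a},
    fun n => J (n % p), fun n => ⟨⟨hJ1 _, hJk _, Or.inr ⟨n % p, Nat.mod_lt n (by omega), rfl,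
      Nat.mod_mod_of_dvd _ (hdiv _ (hJ1 _) (hJk _))⟩⟩, ?_⟩, ?_, C, m, P, ?_⟩
  · -- the exponent is the greatest
    rintro t ⟨ht1, htk, ht | ⟨ρ, hρ, hJρ, hρt⟩⟩
    · rw [ht]
      exact hJ1 _
    by_contra hcon
    push Not at hcon
    beta_reduce at hcon
    have h1 := hJ1 (n % p)
    obtain ⟨C₁, hC₁⟩ := upper_res φ (k := J (n % p)) h1 hp1 (fun t h1 h5 => hdiv t h1 (h5.trans (hJk _)))
      (hJF (n % p))
    obtain ⟨C₂, n₀, hC₂⟩ := lower_res φ (J ρ) p ρ (by omega) (hdiv _ (by omega) (hJk ρ)) (hJF ρ)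
      (hJmin ρ (by omega))
    rw [hJρ] at hC₂
    have hM : n₀ + C₂ ^ J (n % p) * C₁ ^ t + 1 ≤ n + p * (n₀ + C₂ ^ J (n % p) * C₁ ^ t + 1) := by
      have := Nat.le_mul_of_pos_left (n₀ + C₂ ^ J (n % p) * C₁ ^ t + 1) hp1
      omega
    set M := n₀ + C₂ ^ J (n % p) * C₁ ^ t + 1 with hMd
    have h2 := hC₁ (n + p * M) (by omega) (Nat.add_mul_mod_self_left n p M)
    have h3 := hC₂ (n + p * M) (by omega) (by
      obtain ⟨e, he⟩ := hdiv t ht1 htk
      rw [hρt, he, mul_assoc, Nat.add_mul_mod_self_left])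
    have h4 := rate_le (by omega) h1 hcon h3 h2
    omega
  · -- the maximum is attained
    by_contra hcon
    push Not at hcon
    have hk2 : 2 ≤ k := by
      by_contra h2
      have h3 := hcon 0
      have h4 := hJ1 (0 % p)
      have h5 := hJk (0 % p)
      omega
    apply hkmin hk2
    have hall : ∀ ρ, ρ < p → FamR φ (k - 1) p ρ := by
      intro ρ hρ
      refine (hJF ρ).mono ?_
      have h3 := hcon ρ
      beta_reduce at h3
      rw [Nat.mod_eq_of_lt hρ] at h3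
      have h5 := hJk ρ
      omega
    intro q
    choose n₀ hn₀ using fun ρ : Fin p => hall ρ.1 ρ.2 q
    refine ⟨∑ ρ : Fin p, n₀ ρ, fun n hn R hR => ?_⟩
    have hlt : n % p < p := Nat.mod_lt n (by omega)
    refine hn₀ ⟨n % p, hlt⟩ n (le_trans ?_ hn) rfl R hR
    exact Finset.single_le_sum (f := n₀) (fun _ _ => Nat.zero_le _) (Finset.mem_univ _)
  · have hev : ∀ ρ ∈ Finset.range p, ∀ᶠ n : ℕ in atTop, n % p = ρ →
        (J ρ = 1 → (countM φ n : ℚ) = ∑ i, (P i).eval (n : ℚ) * ((i : ℕ) + 1 : ℚ) ^ n) ∧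
        (2 ≤ J ρ → countM φ n ^ J ρ ≤ C ^ n * n ^ ((J ρ - 1) * n) ∧
          n ^ ((J ρ - 1) * n) ≤ C ^ n * countM φ n ^ J ρ) := by
      intro ρ hρ
      have hρ' := Finset.mem_range.1 hρ
      have h1 := hJ1 ρ
      rcases Nat.lt_or_ge (J ρ) 2 with h2 | h2
      · have h3 : J ρ = 1 := by omega
        have h4 := hJF ρ
        rw [h3] at h4
        filter_upwards [hEP ρ hρ' h4] with n hn hres
        exact ⟨fun _ => hn hres, fun h => absurd h (by omega)⟩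
      · filter_upwards [hD ρ h2] with n hn hres
        obtain ⟨h5, h6⟩ := hn hres
        refine ⟨fun h => absurd h (by omega), fun _ => ⟨h5.trans ?_, h6.trans ?_⟩⟩
        · exact Nat.mul_le_mul_right _ (Nat.pow_le_pow_left (hDC ρ hρ') n)
        · exact Nat.mul_le_mul_right _ (Nat.pow_le_pow_left (hDC ρ hρ') n)
    filter_upwards [(Filter.eventually_all_finset _).2 hev] with n hn
    exact hn (n % p) (Finset.mem_range.2 (Nat.mod_lt n (by omega))) rfl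

end Pool.Agent.Helper53.AJ
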