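import Pool.Agent.Helper83.AJ.BellMain
import Pool.Agent.Helper58.AJ.BellNum

/-!
# The sentence `R is an equivalence relation`: the number of its models
-/

set_option autoImplicit false

namespace Pool.Agent.Helper83.AJ

open FirstOrder FirstOrder.Language Pool.Agent.Helper20.Spectra Pool.Agent.Helper58.QD Filter

theorem stmtBell :
    ∃ (S : Type) (_ : Finite S) (ar : S → ℕ) (χ : (RelLang S ar).Sentence), (∀ s, ar s ≤ 2) ∧
      (∀ᶠ n : ℕ in Filter.atTop, count χ n ^ 2 * (Nat.log 2 n + 1) ^ n ≤ n.factorial ^ 2) ∧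
      ∀ ε : ℝ, 0 < ε → ∀ᶠ n : ℕ in Filter.atTop, (n : ℝ) ^ ((1 - ε) * n) ≤ count χ n :=
  bell_upper Pool.Agent.Helper58.AJ.bell_num

end Pool.Agent.Helper83.AJ
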