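import Pool.Agent.Helper20.MC.Conv2

/-!
# The sentence `R is an equivalence relation`: number of models, lower bound
-/

set_option autoImplicit false

namespace Pool.Agent.Helper83.AJ

open FirstOrder FirstOrder.Language Pool.Agent.Helper20.Spectra Pool.Agent.Helper58.QD
open Pool.Agent.Helper20.MC Filter

/-- the relation symbol is an equivalence relation -/
def EqvR {M : Type} (R : Interp Unit (fun _ => 2) M) : Prop :=
  (∀ x : M, R () ![x, x]) ∧ (∀ x y : M, R () ![x, y] → R () ![y, x]) ∧
    ∀ x y z : M, R () ![x, y] → R () ![y, z] → R () ![x, z]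

lemma rel_BFD {α : Type} {e e' : ∀ (M : Type), (α → M) → M} (he : El α e) (he' : El α e') :
    FD Unit (fun _ => 2) α (fun M R v => R () ![e M v, e' M v]) := by
  obtain ⟨a, ha⟩ := he
  obtain ⟨b, hb⟩ := he'
  refine FD.rel (S := Unit) (ar := fun _ => 2) () ⟨![a, b], fun M v => ?_⟩
  beta_reduce
  rw [ha, hb]
  funext i
  fin_cases i <;> rfl

lemma eqv_FD : FD Unit (fun _ => 2) Empty (fun _ R _ => EqvR R) := by
  have v0 : ∀ {α : Type}, El (α ⊕ Unit) (fun M v => v (Sum.inr ())) := El.inr
  exact FD.and (FD.all1 (rel_BFD v0 v0)) (FD.and (FD.all1 (FD.all1 (FD.imp (rel_BFD v0.inl v0)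
    (rel_BFD v0 v0.inl)))) (FD.all1 (FD.all1 (FD.all1 (FD.imp (rel_BFD v0.inl.inl v0.inl)
    (FD.imp (rel_BFD v0.inl v0) (rel_BFD v0.inl.inl v0)))))))

/-- the sentence -/
theorem exists_eqv : ∃ χ : (RelLang Unit (fun _ => 2)).Sentence, ∀ n, count χ n = Nat.card (Setoid (Fin n)) := by
  obtain ⟨χ, hχ⟩ := eqv_FD
  have hM : ∀ {n : ℕ} (R : Interp Unit (fun _ => 2) (Fin n)), IsMod χ R ↔ EqvR R := by
    intro n R
    have h1 := hχ (Fin n) R Empty.elim
    beta_reduce at h1
    have h2 : IsMod χ R ↔ @Formula.Realize (RelLang Unit (fun _ => 2)) (Fin n) (mkS R) Empty χ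
        (Empty.elim : Empty → Fin n) := (real_iff (mkS R) χ Empty.elim default).symm
    rw [h2, h1]
  refine ⟨χ, fun n => ?_⟩
  unfold count
  refine Nat.card_congr
    { toFun := fun R => ⟨fun x y => R.1 () ![x, y], fun x => ((hM R.1).1 R.2).1 x,
        fun {x y} h => ((hM R.1).1 R.2).2.1 x y h, fun {x y z} h h' => ((hM R.1).1 R.2).2.2 x y z h h'⟩
      invFun := fun s => ⟨fun _ v => s (v 0) (v 1), (hM _).2 ⟨fun x => s.refl' x,
        fun x y h => s.symm' h, fun x y z h h' => s.trans' h h'⟩⟩
      left_inv := ?_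
      right_inv := ?_ }
  · rintro ⟨R, hR⟩
    apply Subtype.ext
    funext u v
    obtain rfl : u = () := rfl
    show R () ![v 0, v 1] = R () v
    congr 1
    funext i
    fin_cases i <;> rfl
  · intro s
    ext x y
    rfl

/-- many equivalence relations -/
theorem card_setoid_ge {m n : ℕ} (h : m ≤ n) : m ^ (n - m) ≤ Nat.card (Setoid (Fin n)) := by
  classical
  let g : (Fin (n - m) → Fin m) → Fin n → Fin m := fun f i =>
    if hi : (i : ℕ) < m then ⟨i, hi⟩ else f ⟨i - m, by omega⟩
  have h1 : ∀ f (i : Fin m), g f ⟨i, i.2.trans_le h⟩ = i := by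
    intro f i
    simp only [g]
    rw [dif_pos i.2]
  have h2 : ∀ f (j : Fin (n - m)), g f ⟨m + j, by omega⟩ = f j := by
    intro f j
    simp only [g]
    rw [dif_neg (by omega)]
    congr 1
    apply Fin.ext
    show m + (j : ℕ) - m = j
    omega
  have hinj : Function.Injective fun f => Setoid.ker (g f) := by
    intro f f' hff
    funext j
    have h3 : Setoid.ker (g f) ⟨m + j, by omega⟩ ⟨f j, (f j).2.trans_le h⟩ := by
      show g f _ = g f _
      rw [h1, h2]
    have h4 : Setoid.ker (g f') ⟨m + j, by omega⟩ ⟨f j, (f j).2.trans_le h⟩ := by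
      have := hff
      beta_reduce at this
      rw [← this]
      exact h3
    have h5 : g f' ⟨m + j, by omega⟩ = g f' ⟨f j, (f j).2.trans_le h⟩ := h4
    rw [h1, h2] at h5
    exact h5.symm
  have : Finite (Setoid (Fin n)) := by
    refine Finite.of_injective (fun s : Setoid (Fin n) => fun x y => s x y) ?_
    intro s t hst
    ext x y
    exact (congrFun (congrFun hst x) y).to_iff
  have h3 := Nat.card_le_card_of_injective _ hinj
  rw [Nat.card_eq_fintype_card, Fintype.card_fun, Fintype.card_fin, Fintype.card_fin] at h3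
  exact h3

/-- almost `n ^ n` equivalence relations -/
theorem card_setoid_lower {ε : ℝ} (hε : 0 < ε) : ∀ᶠ n : ℕ in atTop, (n : ℝ) ^ ((1 - ε) * n) ≤ Nat.card (Setoid (Fin n)) := by
  rcases lt_or_ge ε 1 with h1 | h1
  swap
  · filter_upwards [eventually_ge_atTop 1] with n hn
    have h2 : (1 : ℝ) ≤ n := by exact_mod_cast hn
    have h3 : (n : ℝ) ^ ((1 - ε) * n) ≤ 1 := Real.rpow_le_one_of_one_le_of_nonpos h2
      (mul_nonpos_of_nonpos_of_nonneg (by linarith) (by linarith))
    have h4 := card_setoid_ge hn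
    rw [one_pow] at h4
    exact h3.trans (by exact_mod_cast h4)
  · have hlog : Tendsto (fun n : ℕ => Real.log n) atTop atTop :=
      Real.tendsto_log_atTop.comp tendsto_natCast_atTop_atTop
    filter_upwards [eventually_ge_atTop (⌈4 / ε⌉₊), eventually_ge_atTop 1,
      hlog.eventually_ge_atTop ((2 / ε) * Real.log (4 / ε))] with n hn hn1 hn2
    have hnR : (1 : ℝ) ≤ n := by exact_mod_cast hn1
    have h4 : 4 / ε ≤ n := Nat.ceil_le.1 hn
    have h5 : 4 ≤ ε * n := by
      rw [div_le_iff₀ hε] at h4
      linarith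
    set m := ⌊ε / 2 * n⌋₊ with hm
    have hm1 : (m : ℝ) ≤ ε / 2 * n := Nat.floor_le (by positivity)
    have hm2 : ε / 4 * n ≤ m := by
      have := Nat.lt_floor_add_one (ε / 2 * n)
      rw [← hm] at this
      nlinarith
    have hmn : m ≤ n := by
      have : (m : ℝ) ≤ n := by nlinarith
      exact_mod_cast this
    have h6 := card_setoid_ge hmn
    have h7 : ((m : ℝ)) ^ (n - m) ≤ Nat.card (Setoid (Fin n)) := by exact_mod_cast h6
    refine le_trans ?_ h7
    have h8 : (1 : ℝ) ≤ ε / 4 * n := by linarith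
    have hm0 : (1 : ℝ) ≤ m := h8.trans hm2
    rw [← Real.rpow_natCast, Nat.cast_sub hmn]
    have hn0 : (0 : ℝ) < n := by linarith
    have h9 : (1 - ε / 2) * n ≤ (n : ℝ) - m := by linarith
    calc (n : ℝ) ^ ((1 - ε) * n) ≤ (ε / 4 * n) ^ ((1 - ε / 2) * n) := by
          rw [Real.rpow_def_of_pos hn0, Real.rpow_def_of_pos (by linarith)]
          apply Real.exp_le_exp.2
          have h10 : Real.log (ε / 4 * n) = Real.log n - Real.log (4 / ε) := by
            rw [← Real.log_div hn0.ne' (by positivity)]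
            congr 1
            field_simp
          rw [h10]
          have h11 : 0 ≤ Real.log (4 / ε) := Real.log_nonneg (by
            rw [le_div_iff₀ hε]
            linarith)
          have h12 : Real.log (4 / ε) ≤ ε / 2 * Real.log n := by
            have := mul_le_mul_of_nonneg_left hn2 (by positivity : 0 ≤ ε / 2)
            have e : ε / 2 * (2 / ε * Real.log (4 / ε)) = Real.log (4 / ε) := by field_simp
            linarith
          have h13 : Real.log n * (1 - ε) ≤ (Real.log n - Real.log (4 / ε)) * (1 - ε / 2) := by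
            have h14 : Real.log (4 / ε) * (1 - ε / 2) ≤ Real.log (4 / ε) :=
              mul_le_of_le_one_right h11 (by linarith)
            nlinarith
          have := mul_le_mul_of_nonneg_right h13 hn0.le
          linarith
      _ ≤ (m : ℝ) ^ ((1 - ε / 2) * n) := Real.rpow_le_rpow (by linarith) hm2 (by
          apply mul_nonneg <;> linarith)
      _ ≤ (m : ℝ) ^ ((n : ℝ) - m) := Real.rpow_le_rpow_of_exponent_le hm0 h9

end Pool.Agent.Helper83.AJ
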