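import Pool.Agent.Helper83.AJ.Bell0
import Pool.Agent.Helper53.AJ.Bell

/-!
# The sentence `R is an equivalence relation`
-/

set_option autoImplicit false

namespace Pool.Agent.Helper83.AJ

open FirstOrder FirstOrder.Language Pool.Agent.Helper20.Spectra Pool.Agent.Helper58.QD Filter

/-- the upper bound, over the numerics -/
theorem bell_upper (hnum : ∀ᶠ n : ℕ in atTop, (∑ m ∈ Finset.range (n + 1), n.choose m * m ^ (n - m)) ^ 2 *
    (Nat.log 2 n + 1) ^ n ≤ n.factorial ^ 2) :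
    ∃ (S : Type) (_ : Finite S) (ar : S → ℕ) (χ : (RelLang S ar).Sentence), (∀ s, ar s ≤ 2) ∧
      (∀ᶠ n : ℕ in Filter.atTop, count χ n ^ 2 * (Nat.log 2 n + 1) ^ n ≤ n.factorial ^ 2) ∧
      ∀ ε : ℝ, 0 < ε → ∀ᶠ n : ℕ in Filter.atTop, (n : ℝ) ^ ((1 - ε) * n) ≤ count χ n := by
  obtain ⟨χ, hχ⟩ := exists_eqv
  refine ⟨Unit, inferInstance, fun _ => 2, χ, fun _ => le_rfl, ?_, fun ε hε => ?_⟩
  · filter_upwards [hnum] with n hn
    rw [hχ]
    exact (Nat.mul_le_mul_right _ (Nat.pow_le_pow_left (Pool.Agent.Helper53.AJ.bell_le n) 2)).trans hn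
  · filter_upwards [card_setoid_lower hε] with n hn
    rw [hχ]
    exact hn

end Pool.Agent.Helper83.AJ
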